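import Pool.Agent.N206.CG.Stm2

/-! Project CG: normal subgroups moving a letter contain the kernel of the root; this kernel is
preserved by all automorphisms. -/

set_option autoImplicit false

namespace Pool.Agent.N128.CG

open Pool.Agent.N206.CG

theorem t_TOP {L : Loc} (S : Sys L) (h : S_PERF S) : S_TOP S := by
  intro n N hN hd e he
  obtain ⟨d, hdN, hd1⟩ := hd
  obtain ⟨x, hx⟩ : ∃ x, S.root n d x ≠ x := by
    by_contra hcon
    push Not at hcon
    exact hd1 (Equiv.ext hcon)
  have hM : N.comap (S.lamH n x) = ⊤ := by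
    rw [eq_top_iff, ← h (n + 1), commutator_def, Subgroup.commutator_le]
    intro g₁ _ g₂ _
    rw [Subgroup.mem_comap, Sys.lamH_apply]
    have h1 := S.comm_lam n d x hx g₁⁻¹ g₂
    rw [inv_inv] at h1
    rw [commutatorElement_def, ← h1]
    have h2 : d * S.lam n x g₁⁻¹ * d⁻¹ * (S.lam n x g₁⁻¹)⁻¹ ∈ N := by
      have h3 : S.lam n x g₁⁻¹ * d⁻¹ * (S.lam n x g₁⁻¹)⁻¹ ∈ N :=
        hN.conj_mem _ (N.inv_mem hdN) _
      have h4 := N.mul_mem hdN h3
      simpa only [mul_assoc] using h4
    have h5 := hN.conj_mem _ (N.inv_mem h2) (S.lam n x g₂)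
    have h6 := N.mul_mem h2 h5
    simpa only [mul_assoc] using h6
  have hall : ∀ y u, S.lam n y u ∈ N := by
    intro y u
    obtain ⟨g, hg⟩ := S.exists_rt n x y
    have h1 := S.conj_lam n (S.rt n g) x u
    rw [hg, S.sec_rt, one_mul, inv_one, mul_one] at h1
    rw [← h1]
    refine hN.conj_mem _ ?_ _
    have h2 : u ∈ N.comap (S.lamH n x) := by rw [hM]; exact Subgroup.mem_top u
    exact h2
  exact S.mem_of_lam n N e he fun y => hall y _

theorem t_KER {L : Loc} (S : Sys L) (h : S_TOP S) : S_KER S := by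
  intro n α d hd
  by_contra hcon
  set k := (S.root n).ker with hk
  set M : Subgroup (S.D n) := k.comap (α⁻¹ : MulAut (S.D n)).toMonoidHom with hMdef
  have hdM : α d ∈ M := by
    rw [hMdef, Subgroup.mem_comap, hk, MonoidHom.mem_ker]
    have : (α⁻¹ : MulAut (S.D n)).toMonoidHom (α d) = d := by
      change (α⁻¹ : MulAut (S.D n)) (α d) = d
      exact MulAut.inv_apply_self _ α d
    rw [this]; exact hd
  have hMN : M.Normal := by
    rw [hMdef]; infer_instance
  have hle : k ≤ M := fun e he => h n M hMN ⟨α d, hdM, hcon⟩ e (MonoidHom.mem_ker.1 he)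
  have hidx : M.index = k.index :=
    Subgroup.index_comap_of_surjective k (α⁻¹ : MulAut (S.D n)).surjective
  have hk0 : k.index ≠ 0 := by
    rw [hk, Subgroup.index_ker]
    exact Nat.card_pos.ne'
  have h1 := Subgroup.relIndex_mul_index hle
  rw [hidx] at h1
  have h2 : k.relIndex M = 1 := by
    have h3 : k.relIndex M * k.index = 1 * k.index := by rw [h1, one_mul]
    exact Nat.eq_of_mul_eq_mul_right (Nat.pos_of_ne_zero hk0) h3
  have h4 : M ≤ k := Subgroup.relIndex_eq_one.1 h2
  exact hcon (MonoidHom.mem_ker.1 (h4 hdM))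

end Pool.Agent.N128.CG
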